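import Pool.Agent.H89.GEN.Poly
import Pool.Agent.H36.KBX.Coef
import Pool.Agent.H64.STAT.Rows

/-!
# Row FIBW: entropy of a polynomial map of almost uniform variables

Coarse digits, replacement of a variable by a close one, and the row.
-/

set_option autoImplicit false

namespace Pool.POLY

open Finset Real
open Pool.Agent.H49.Ent Pool.Agent.H32.Dense Pool.STK

section

variable {Ω κ : Type} [Fintype Ω]

theorem H_eq_CH {S : Type} {p : Ω → ℝ} (hp : IsLaw p) (X : Ω → S) :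
    H p X = CH p X (fun _ => ()) := by
  unfold CH
  rw [H_const hp.sum_one, sub_zero]
  refine H_congr hp.nonneg ?_ ?_
  · intro ω ω' _ _ h
    exact congrArg Prod.fst h
  · intro ω ω' _ _ h
    exact Prod.ext h rfl

/-- Coarse digits. -/
theorem CH_coarse {N : ℕ} {p : Ω → ℝ} (hp : IsLaw p) (s : Ω → Fin N → ℤ) (c : Ω → κ) (k : ℕ) :
    CH p s c ≤ CH p (fun ω a => s ω a / 2 ^ k) c + N * ((k + 2) * Real.log 2) := by
  have h1 := CH_le_add hp.nonneg s (fun ω a => s ω a / 2 ^ k) c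
  have h2 : CH p s (fun ω => ((fun a => s ω a / 2 ^ k), c ω)) ≤ N * ((k + 2) * Real.log 2) := by
    refine (CH_le_vec hp.nonneg hp.sum_one s _ (fun _ => 2 ^ k) ?_).trans ?_
    · intro ω ω' _ _ h a
      have h3 := congrFun (congrArg Prod.fst h) a
      dsimp only at h3
      have e1 : (0 : ℤ) < 2 ^ k := by positivity
      have e2 := Int.ediv_mul_le (s ω a) e1.ne'
      have e3 := Int.lt_ediv_add_one_mul_self (s ω a) e1
      have e4 := Int.ediv_mul_le (s ω' a) e1.ne'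
      have e5 := Int.lt_ediv_add_one_mul_self (s ω' a) e1
      rw [h3] at e2 e3
      have h4 : |s ω a - s ω' a| ≤ 2 ^ k := by
        rw [abs_le]
        constructor <;> linarith
      have h5 : ((|s ω a - s ω' a| : ℤ) : ℝ) ≤ ((2 ^ k : ℤ) : ℝ) := by exact_mod_cast h4
      push_cast at h5 ⊢
      exact h5
    · rw [Ex_const hp.sum_one]
      refine mul_le_mul_of_nonneg_left ?_ (Nat.cast_nonneg _)
      have e1 : (2 : ℝ) * 2 ^ k + 1 ≤ 2 ^ (k + 2) := by
        have e5 : (1 : ℝ) ≤ 2 ^ k := one_le_pow₀ (by norm_num)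
        rw [pow_add]
        linarith
      refine (Real.log_le_log (by positivity) e1).trans ?_
      rw [Real.log_pow]
      push_cast
      exact le_rfl
  linarith

/-- A variable which is close to another one outside of a rare event. -/
theorem CH_close {n : ℕ} {p : Ω → ℝ} (hp : IsLaw p) (Y Z : Ω → Fin n → ℤ) (c : Ω → κ)
    (G : Ω → Prop) (r M β : ℝ) (hr : 0 ≤ r) (hM : 0 ≤ M)
    (h : ∀ ω, 0 < p ω → G ω → ∀ i, |((Y ω i : ℤ) : ℝ) - Z ω i| ≤ r)
    (hY : ∀ ω ω', 0 < p ω → 0 < p ω' → ∀ i, |((Y ω i - Y ω' i : ℤ) : ℝ)| ≤ M)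
    (hβ : Ex p (fun ω => in1 (¬ G ω)) ≤ β) :
    CH p Y c ≤ CH p Z c + Real.log 2 + n * (Real.log (4 * r + 1) + β * Real.log (2 * M + 1)) := by
  classical
  have h1 := CH_le_add hp.nonneg Y Z c
  set g : Ω → Bool := fun ω => decide (G ω) with hg
  have h2 := CH_le_add hp.nonneg Y g (fun ω => (Z ω, c ω))
  have h3 : CH p g (fun ω => (Z ω, c ω)) ≤ Real.log 2 := by
    have h6 := CH_le_card hp.nonneg hp.sum_one g (fun ω => (Z ω, c ω)) (fun _ => Finset.univ)
      (fun ω _ => Finset.mem_univ _)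
    refine h6.trans ?_
    rw [Ex_const hp.sum_one]
    simp
  have hlM : 0 ≤ Real.log (2 * M + 1) := Real.log_nonneg (by linarith)
  have hlr : 0 ≤ Real.log (4 * r + 1) := Real.log_nonneg (by linarith)
  have h4 : CH p Y (fun ω => (g ω, (Z ω, c ω))) ≤
      n * (Real.log (4 * r + 1) + β * Real.log (2 * M + 1)) := by
    refine (CH_le_vec hp.nonneg hp.sum_one Y _ (fun ω => if G ω then 2 * r else M) ?_).trans ?_
    · intro ω ω' hω hω' hh i
      simp only [Prod.mk.injEq] at hh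
      obtain ⟨k1, k2, k3⟩ := hh
      split_ifs with hb
      · have hb' : G ω' := by
          have : g ω = true := decide_eq_true hb
          rw [k1] at this
          exact of_decide_eq_true this
        have e1 := h ω hω hb i
        have e2 := h ω' hω' hb' i
        rw [congrFun k2 i] at e1
        push_cast
        calc |(Y ω i : ℝ) - Y ω' i| = |((Y ω i : ℝ) - Z ω' i) - ((Y ω' i : ℝ) - Z ω' i)| := by
              congr 1
              ring
          _ ≤ |(Y ω i : ℝ) - Z ω' i| + |(Y ω' i : ℝ) - Z ω' i| := abs_sub _ _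
          _ ≤ 2 * r := by linarith
      · exact hY ω ω' hω hω' i
    · refine mul_le_mul_of_nonneg_left ?_ (Nat.cast_nonneg _)
      have e1 : Ex p (fun ω => Real.log (4 * r + 1) + Real.log (2 * M + 1) * in1 (¬ G ω)) ≤
          Real.log (4 * r + 1) + β * Real.log (2 * M + 1) := by
        rw [Ex_add, Ex_const hp.sum_one, Ex_smul]
        have := mul_le_mul_of_nonneg_left hβ hlM
        linarith
      refine le_trans (Ex_mono hp.nonneg fun ω hω => ?_) e1
      by_cases hb : G ω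
      · rw [if_pos hb]
        unfold in1
        rw [if_neg (not_not.mpr hb), mul_zero, add_zero]
        exact le_of_eq (by congr 1; ring)
      · rw [if_neg hb]
        unfold in1
        rw [if_pos hb, mul_one]
        linarith
  linarith

theorem totalDegree_jac {n r : ℕ} (P : Fin r → MvPolynomial (Fin n) ℝ) (I : Fin r → Fin n) {K : ℕ}
    (h : ∀ j, (P j).totalDegree ≤ K) : (jac P I).totalDegree ≤ r * K := by
  classical
  unfold jac
  rw [Matrix.det_apply]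
  refine (MvPolynomial.totalDegree_finsetSum _ _).trans (Finset.sup_le fun σ _ => ?_)
  have h1 : (Equiv.Perm.sign σ • ∏ j, (Matrix.of fun j i => MvPolynomial.pderiv (I i) (P j))
      (σ j) j).totalDegree
      ≤ (∏ j, (Matrix.of fun j i => MvPolynomial.pderiv (I i) (P j)) (σ j) j).totalDegree := by
    rcases Int.units_eq_one_or (Equiv.Perm.sign σ) with h2 | h2
    · rw [h2, one_smul]
    · rw [h2, Units.neg_smul, one_smul, MvPolynomial.totalDegree_neg]
  refine h1.trans ((MvPolynomial.totalDegree_finsetProd _ _).trans ?_)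
  calc ∑ j, ((Matrix.of fun j i => MvPolynomial.pderiv (I i) (P j)) (σ j) j).totalDegree
      ≤ ∑ _j : Fin r, K := Finset.sum_le_sum fun j _ => totalDegree_pderiv _ _ (h _)
    _ = r * K := by rw [Finset.sum_const, Finset.card_univ, Fintype.card_fin, smul_eq_mul]

/-- A large coefficient gives a large value in the unit box. -/
theorem big_value (n D : ℕ) : ∃ c : ℕ, ∀ (P : MvPolynomial (Fin n) ℝ) (a : ℕ) (δ : ℝ),
    P.totalDegree ≤ D → 2 ^ c * (1 / 2) ^ a ≤ δ → (¬ ∀ k, |P.coeff k| ≤ δ) →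
    ∃ z : Fin n → ℝ, (∀ i, |z i| ≤ 1) ∧ (1 / 2) ^ a ≤ |MvPolynomial.eval z P| := by
  obtain ⟨C, hC0, hC⟩ := Pool.Agent.H36.KBX.coef_bound n D
  obtain ⟨c, hc⟩ := pow_unbounded_of_one_lt C (by norm_num : (1 : ℝ) < 2)
  refine ⟨c, ?_⟩
  intro P a δ hP hδ hk
  by_contra hcon
  push Not at hcon
  apply hk
  intro k
  have h1 := hC P ((1 / 2) ^ a) hP (fun y hy => (hcon y hy).le) k
  have h2 : C * (1 / 2) ^ a ≤ 2 ^ c * (1 / 2) ^ a :=
    mul_le_mul_of_nonneg_right hc.le (by positivity)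
  linarith

end

end Pool.POLY

namespace Pool.STAT

open Finset MvPolynomial
open Pool.Agent.H49.Ent Pool.Agent.H32.Dense Pool.STK Pool.KS3
open Pool.BFL (Pl CB Pb P2 MC alt)
open Pool.POLY

theorem Pb_eq {W : Type} [Fintype W] (q : W → ℝ) (A : W → Prop) :
    Pb q A = Ex q (fun w => in1 (A w)) := by
  classical
  unfold Pb Ex in1
  refine Finset.sum_congr rfl fun w _ => ?_
  dsimp only
  by_cases h : A w
  · rw [if_pos h, if_pos h, mul_one]
  · rw [if_neg h, if_neg h, mul_zero]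

/-- **Row FIBW.** -/
theorem fib_thm : FibStmt := by
  classical
  intro n N D C₀ hN hC₀
  obtain ⟨Cp, hCp1, hCp⟩ := poly_ent N n D
  obtain ⟨cb, hcb⟩ := big_value N (n * D)
  have hl2 : 0 < Real.log 2 := Real.log_pos (by norm_num)
  have hl2' : Real.log 2 ≤ 1 := by linarith [Real.log_two_lt_d9]
  have hl2h : 1 / 2 ≤ Real.log 2 := by linarith [Real.log_two_gt_d9]
  -- the constants of the third part
  set C₃ : ℝ := 2 + N * (D + 1) ^ (N + 1) with hC₃
  set C₄ : ℝ := (D + 1) ^ N + 2 with hC₄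
  have hC₃1 : 1 ≤ C₃ := by
    have : (0 : ℝ) ≤ 1 + N * (D + 1) ^ (N + 1) := by positivity
    linarith
  have hC₄1 : 1 ≤ C₄ := by
    have : (0 : ℝ) ≤ 1 + (D + 1) ^ N := by positivity
    linarith
  set L₃ : ℝ := Real.log (4 * C₃ + 1) with hL₃
  set L₄ : ℝ := Real.log (4 * C₄ + 1) with hL₄
  have hL₃0 : 0 ≤ L₃ := Real.log_nonneg (by linarith)
  have hL₄0 : 0 ≤ L₄ := Real.log_nonneg (by linarith)
  refine ⟨6 * Cp + 6 * n + 1, by
    have : (0 : ℝ) ≤ n := Nat.cast_nonneg _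
    linarith, ?_⟩
  intro κ hκ0 hκ1
  set G₀ : ℝ := 10 + cb + 4 * N + L₃ + L₄ with hG₀
  have hG₀0 : 0 ≤ G₀ := by positivity
  refine ⟨κ ^ 2, by positivity, ⌈G₀ / κ ^ 2⌉₊, ?_⟩
  intro U m hU hm2 hmC W _ μ s A e Z Gd hμ hs hH hdeg hCB hnCB hPb hZ
  have hκ2 : κ ^ 2 ≤ κ := by nlinarith
  have hU0 : (0 : ℝ) ≤ U := Nat.cast_nonneg _
  have hU1 : G₀ ≤ κ ^ 2 * U := by
    have h1 : G₀ / κ ^ 2 ≤ U := (Nat.le_ceil _).trans (by exact_mod_cast hU)
    rw [div_le_iff₀ (by positivity)] at h1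
    linarith
  have hU2 : κ ^ 2 * U ≤ κ * U := mul_le_mul_of_nonneg_right hκ2 hU0
  have hUm : U ≤ m := by omega
  -- the parameters
  set a : ℕ := ⌈κ * U / Real.log 2⌉₊ + cb with ha
  set b : ℕ := ⌈κ ^ 2 * U / Real.log 2⌉₊ with hb
  set u : ℕ := ⌈κ * U⌉₊ with hu
  have ha1 : (a : ℝ) * Real.log 2 ≤ κ * U + (1 + cb) := by
    have h1 := (Nat.ceil_lt_add_one (show 0 ≤ κ * U / Real.log 2 by positivity)).le
    have h2 : (a : ℝ) ≤ κ * U / Real.log 2 + (1 + cb) := by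
      rw [ha]
      push_cast
      linarith
    calc (a : ℝ) * Real.log 2 ≤ (κ * U / Real.log 2 + (1 + cb)) * Real.log 2 :=
          mul_le_mul_of_nonneg_right h2 hl2.le
      _ = κ * U + (1 + cb) * Real.log 2 := by field_simp
      _ ≤ κ * U + (1 + cb) := by
          have : (1 + (cb : ℝ)) * Real.log 2 ≤ 1 + cb := mul_le_of_le_one_right (by positivity) hl2'
          linarith
  have hb1 : (b : ℝ) * Real.log 2 ≤ κ ^ 2 * U + 1 := by
    have h1 := (Nat.ceil_lt_add_one (show 0 ≤ κ ^ 2 * U / Real.log 2 by positivity)).le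
    calc (b : ℝ) * Real.log 2 ≤ (κ ^ 2 * U / Real.log 2 + 1) * Real.log 2 :=
          mul_le_mul_of_nonneg_right h1 hl2.le
      _ = κ ^ 2 * U + Real.log 2 := by field_simp
      _ ≤ κ ^ 2 * U + 1 := by linarith
  have hu1 : (u : ℝ) ≤ κ * U + 1 := (Nat.ceil_lt_add_one (show 0 ≤ κ * U by positivity)).le
  have hu2 : κ * U ≤ u := Nat.le_ceil _
  have hG10 : (10 : ℝ) ≤ G₀ := by
    have : (0 : ℝ) ≤ cb + 4 * N + L₃ + L₄ := by positivity
    linarith
  have hu3 : 1 ≤ u := by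
    have : (0 : ℝ) < u := by linarith
    exact_mod_cast this
  have hexpb : Real.exp (κ ^ 2 * U) ≤ 2 ^ b := by
    have h1 : κ ^ 2 * U ≤ b * Real.log 2 := by
      have := Nat.le_ceil (κ ^ 2 * U / Real.log 2)
      rw [div_le_iff₀ hl2] at this
      exact this
    calc Real.exp (κ ^ 2 * U) ≤ Real.exp (b * Real.log 2) := Real.exp_le_exp.mpr h1
      _ = 2 ^ b := by rw [Real.exp_nat_mul, Real.exp_log (by norm_num)]
  have hexpa : 2 ^ cb * (1 / 2) ^ a ≤ Real.exp (-(κ * U)) := by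
    have h1 : κ * U ≤ (⌈κ * U / Real.log 2⌉₊ : ℕ) * Real.log 2 := by
      have := Nat.le_ceil (κ * U / Real.log 2)
      rw [div_le_iff₀ hl2] at this
      exact this
    have h2 : (2 : ℝ) ^ cb * (1 / 2) ^ a = (1 / 2) ^ (⌈κ * U / Real.log 2⌉₊ : ℕ) := by
      rw [ha, pow_add]
      have : (2 : ℝ) ^ cb * (1 / 2) ^ cb = 1 := by rw [← mul_pow]; norm_num
      linear_combination ((1 / 2 : ℝ) ^ (⌈κ * U / Real.log 2⌉₊ : ℕ)) * this
    rw [h2, Real.exp_neg, one_div, inv_pow]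
    refine inv_anti₀ (Real.exp_pos _) ?_
    calc Real.exp (κ * U) ≤ Real.exp ((⌈κ * U / Real.log 2⌉₊ : ℕ) * Real.log 2) :=
          Real.exp_le_exp.mpr h1
      _ = 2 ^ (⌈κ * U / Real.log 2⌉₊ : ℕ) := by
          rw [Real.exp_nat_mul, Real.exp_log (by norm_num)]
  -- the coarse digits
  set k : ℕ := m - U with hk
  have hkm : (k : ℝ) = m - U := by rw [hk, Nat.cast_sub hUm]
  set y : W → Fin N → ℤ := fun w a => s w a / 2 ^ k with hy
  have h1 := CH_coarse hμ s (fun _ => ()) k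
  rw [← H_eq_CH hμ] at h1
  have hyH : N * (U * Real.log 2) - (κ ^ 2 * U + 2 * N) ≤ CH μ y (fun _ => ()) := by
    have h2 : (N : ℝ) * Real.log 2 ≤ N := mul_le_of_le_one_right (Nat.cast_nonneg _) hl2'
    rw [hkm] at h1
    have h3 : (N : ℝ) * ((m - U + 2) * Real.log 2) =
      N * (m * Real.log 2) - N * (U * Real.log 2) + 2 * (N * Real.log 2) := by ring
    rw [h3] at h1
    linarith
  have hpk : (0 : ℝ) < 2 ^ k := by positivity
  have hpU : (0 : ℝ) < 2 ^ U := by positivity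
  have hpm : (2 : ℝ) ^ m = 2 ^ U * 2 ^ k := by
    rw [← pow_add]
    congr 1
    omega
  have hyfl : ∀ w a, (y w a : ℝ) * 2 ^ k ≤ s w a ∧ (s w a : ℝ) < (y w a + 1) * 2 ^ k := by
    intro w a
    have e1 : (0 : ℤ) < 2 ^ k := by positivity
    have e2 := Int.ediv_mul_le (s w a) e1.ne'
    have e3 := Int.lt_ediv_add_one_mul_self (s w a) e1
    constructor
    · have : ((y w a * 2 ^ k : ℤ) : ℝ) ≤ s w a := by exact_mod_cast e2
      push_cast at this
      exact this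
    · have : ((s w a : ℤ) : ℝ) < (((y w a + 1) * 2 ^ k : ℤ) : ℝ) := by exact_mod_cast e3
      push_cast at this
      exact this
  have hsR : ∀ w a, |(s w a : ℝ)| ≤ 2 ^ U * 2 ^ k := by
    intro w a
    rw [← hpm]
    have : ((|s w a| : ℤ) : ℝ) ≤ ((2 ^ m : ℤ) : ℝ) := by exact_mod_cast hs w a
    push_cast at this
    exact this
  have hyR : ∀ w a, |((y w a : ℤ) : ℝ)| ≤ 2 ^ U := by
    intro w a
    have e1 := (abs_le.1 (hsR w a))
    have e2 := hyfl w a
    rw [abs_le]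
    constructor
    · -- `-2 ^ U ≤ y`
      have e3 : (-(2 ^ U : ℝ)) * 2 ^ k < (y w a + 1) * 2 ^ k := by linarith
      have e4 := lt_of_mul_lt_mul_right e3 hpk.le
      have e5 : (-(2 ^ U : ℤ)) < y w a + 1 := by exact_mod_cast e4
      have e6 : (-(2 ^ U : ℤ)) ≤ y w a := by omega
      exact_mod_cast e6
    · have e3 : (y w a : ℝ) * 2 ^ k ≤ 2 ^ U * 2 ^ k := by linarith
      exact le_of_mul_le_mul_right e3 hpk
  obtain ⟨z₀, hz₀, hz₀'⟩ := hcb (jac A e) a (Real.exp (-(κ * U))) (totalDegree_jac A e hdeg)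
    hexpa hnCB
  have hmain := hCp W Unit μ U 0 a b u y (fun _ => ()) (fun _ => A) (fun _ => e)
    (κ ^ 2 * U + 2 * N) hμ hu3 (by positivity)
    (fun w _ i => by rw [pow_zero, one_mul]; exact hyR w i) (fun _ => hdeg)
    (fun _ j k => (hCB j k).trans hexpb)
    (fun w _ => ⟨z₀, fun i => by rw [pow_zero]; exact hz₀ i, hz₀'⟩) hyH
  set Y : W → Fin n → ℤ := fun w j => ⌊2 ^ U * MvPolynomial.eval
    (fun i => ((y w i : ℤ) : ℝ) / 2 ^ U) (A j)⌋ with hY
  change _ ≤ CH μ Y (fun _ => ()) at hmain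
  -- the true values
  have hexp1 : (1 : ℝ) ≤ Real.exp (κ ^ 2 * U) := Real.one_le_exp (by positivity)
  have hbox1 : ∀ w i, |((y w i : ℤ) : ℝ) / 2 ^ U| ≤ 1 := by
    intro w i
    rw [abs_div, abs_of_pos hpU, div_le_one hpU]
    exact hyR w i
  have hbox2 : ∀ w i, |((s w i : ℤ) : ℝ) / 2 ^ m| ≤ 1 := by
    intro w i
    rw [hpm, abs_div, abs_of_pos (by positivity : (0 : ℝ) < 2 ^ U * 2 ^ k),
      div_le_one (by positivity)]
    exact hsR w i
  have hclose : ∀ w, 0 < μ w → Gd w → ∀ i, |((Y w i : ℤ) : ℝ) - Z w i| ≤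
      C₃ * Real.exp (κ ^ 2 * U) := by
    intro w _ hG i
    have e1 := hZ w hG i
    have e2 := seg_le (A i) (hdeg i) (hCB i) (le_refl (1 : ℝ)) (V := 1 / 2 ^ U)
      (fun a => ((y w a : ℤ) : ℝ) / 2 ^ U)
      (fun a => ((s w a : ℤ) : ℝ) / 2 ^ m - ((y w a : ℤ) : ℝ) / 2 ^ U) (hbox1 w) (by
        intro i
        have : ((y w i : ℤ) : ℝ) / 2 ^ U + (((s w i : ℤ) : ℝ) / 2 ^ m - ((y w i : ℤ) : ℝ) / 2 ^ U) =
          ((s w i : ℤ) : ℝ) / 2 ^ m := by ring
        rw [this]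
        exact hbox2 w i) (by
        intro i
        have e3 := hyfl w i
        have e4 : ((y w i : ℤ) : ℝ) / 2 ^ U = (y w i * 2 ^ k) / 2 ^ m := by
          rw [hpm]
          field_simp
        have e5 : (1 : ℝ) / 2 ^ U = 2 ^ k / 2 ^ m := by
          rw [hpm]
          field_simp
        have hpm0 : (0 : ℝ) < 2 ^ m := by positivity
        rw [e4, e5, ← sub_div, abs_div, abs_of_pos hpm0]
        refine div_le_div_of_nonneg_right ?_ hpm0.le
        rw [abs_le]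
        constructor <;> linarith) 1 ⟨by norm_num, le_rfl⟩
    have e6 : (fun a => ((y w a : ℤ) : ℝ) / 2 ^ U +
        1 * (((s w a : ℤ) : ℝ) / 2 ^ m - ((y w a : ℤ) : ℝ) / 2 ^ U)) =
        fun a => ((s w a : ℤ) : ℝ) / 2 ^ m := by
      funext a
      ring
    rw [e6, one_pow, mul_one] at e2
    have e7 := Int.floor_le (2 ^ U * MvPolynomial.eval (fun i => ((y w i : ℤ) : ℝ) / 2 ^ U) (A i))
    have e8 := Int.lt_floor_add_one
      (2 ^ U * MvPolynomial.eval (fun i => ((y w i : ℤ) : ℝ) / 2 ^ U) (A i))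
    have e9 : |(2 : ℝ) ^ U * MvPolynomial.eval (fun a => ((s w a : ℤ) : ℝ) / 2 ^ m) (A i) -
        2 ^ U * MvPolynomial.eval (fun i => ((y w i : ℤ) : ℝ) / 2 ^ U) (A i)| ≤
        N * (D + 1) ^ (N + 1) * Real.exp (κ ^ 2 * U) := by
      rw [← mul_sub, abs_mul, abs_of_pos hpU]
      calc (2 : ℝ) ^ U * |MvPolynomial.eval (fun a => ((s w a : ℤ) : ℝ) / 2 ^ m) (A i) -
          MvPolynomial.eval (fun i => ((y w i : ℤ) : ℝ) / 2 ^ U) (A i)| ≤
          2 ^ U * (N * ((D + 1) ^ (N + 1) * Real.exp (κ ^ 2 * U)) * (1 / 2 ^ U)) :=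
            mul_le_mul_of_nonneg_left e2 hpU.le
        _ = _ := by field_simp
    have e10 := abs_le.1 e9
    have e11 := abs_le.1 e1
    have e12 : Y w i = ⌊2 ^ U * MvPolynomial.eval
      (fun i => ((y w i : ℤ) : ℝ) / 2 ^ U) (A i)⌋ := rfl
    rw [e12, abs_le, hC₃]
    constructor <;> linarith
  have hYd : ∀ w w', 0 < μ w → 0 < μ w' → ∀ i, |((Y w i - Y w' i : ℤ) : ℝ)| ≤
      2 * C₄ * 2 ^ U * Real.exp (κ ^ 2 * U) := by
    have hone : ∀ w i, |((Y w i : ℤ) : ℝ)| ≤ C₄ * 2 ^ U * Real.exp (κ ^ 2 * U) := by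
      intro w i
      have e1 := abs_eval_le (A i) (hdeg i) (hCB i) (le_refl (1 : ℝ)) _ (hbox1 w)
      rw [one_pow, mul_one] at e1
      have e7 := Int.floor_le (2 ^ U * MvPolynomial.eval (fun i => ((y w i : ℤ) : ℝ) / 2 ^ U) (A i))
      have e8 := Int.lt_floor_add_one
        (2 ^ U * MvPolynomial.eval (fun i => ((y w i : ℤ) : ℝ) / 2 ^ U) (A i))
      have e2 : |(2 : ℝ) ^ U * MvPolynomial.eval (fun i => ((y w i : ℤ) : ℝ) / 2 ^ U) (A i)| ≤
          2 ^ U * ((D + 1) ^ N * Real.exp (κ ^ 2 * U)) := by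
        rw [abs_mul, abs_of_pos hpU]
        exact mul_le_mul_of_nonneg_left e1 hpU.le
      have e3 := abs_le.1 e2
      have e4 : (1 : ℝ) ≤ 2 ^ U * Real.exp (κ ^ 2 * U) :=
        one_le_mul_of_one_le_of_one_le (one_le_pow₀ (by norm_num)) hexp1
      have e12 : Y w i = ⌊2 ^ U * MvPolynomial.eval
        (fun i => ((y w i : ℤ) : ℝ) / 2 ^ U) (A i)⌋ := rfl
      rw [e12, abs_le, hC₄]
      constructor <;> linarith
    intro w w' _ _ i
    push_cast
    refine (abs_sub _ _).trans ?_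
    have := hone w i
    have := hone w' i
    linarith
  have hrep := CH_close hμ Y Z (fun _ => ()) Gd (C₃ * Real.exp (κ ^ 2 * U))
    (2 * C₄ * 2 ^ U * Real.exp (κ ^ 2 * U)) (κ ^ 2) (by positivity) (by positivity) hclose hYd
    (by rw [← Pb_eq]; exact hPb)
  rw [← H_eq_CH hμ Z] at hrep
  have hlog3 : Real.log (4 * (C₃ * Real.exp (κ ^ 2 * U)) + 1) ≤ L₃ + κ ^ 2 * U := by
    rw [hL₃, ← Real.log_exp (κ ^ 2 * U), ← Real.log_mul (by positivity) (by positivity),
      Real.log_exp]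
    refine Real.log_le_log (by positivity) ?_
    linarith
  have hlog4 : Real.log (2 * (2 * C₄ * 2 ^ U * Real.exp (κ ^ 2 * U)) + 1) ≤
      L₄ + U + κ ^ 2 * U := by
    have e1 : Real.log (2 * (2 * C₄ * 2 ^ U * Real.exp (κ ^ 2 * U)) + 1) ≤
        Real.log ((4 * C₄ + 1) * 2 ^ U * Real.exp (κ ^ 2 * U)) := by
      refine Real.log_le_log (by positivity) ?_
      have e4 : (1 : ℝ) ≤ 2 ^ U * Real.exp (κ ^ 2 * U) :=
        one_le_mul_of_one_le_of_one_le (one_le_pow₀ (by norm_num)) hexp1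
      linarith
    rw [Real.log_mul (by positivity) (by positivity), Real.log_mul (by positivity) (by positivity),
      Real.log_exp, Real.log_pow] at e1
    have e2 : (U : ℝ) * Real.log 2 ≤ U := mul_le_of_le_one_right hU0 hl2'
    linarith
  have hn0 : (0 : ℝ) ≤ n := Nat.cast_nonneg _
  have hcb0 : (0 : ℝ) ≤ cb := Nat.cast_nonneg _
  have hN0 : (0 : ℝ) ≤ N := Nat.cast_nonneg _
  have hκ21 : κ ^ 2 ≤ 1 := by linarith
  have hκ20 : 0 ≤ κ ^ 2 := by positivity
  clear_value L₃ L₄ C₃ C₄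
  set T : ℝ := κ * U with hT
  have hT0 : G₀ ≤ T := hU1.trans hU2
  have l1 : Cp * ((a : ℝ) + b + u + (0 : ℕ) + 1) * Real.log 2 ≤ Cp * (4 * T) := by
    have e1 : ((a : ℝ) + b + u + (0 : ℕ) + 1) * Real.log 2 ≤ 4 * T := by
      have e2 : (u : ℝ) * Real.log 2 ≤ u := mul_le_of_le_one_right (Nat.cast_nonneg _) hl2'
      rw [Nat.cast_zero]
      have e3 : ((a : ℝ) + b + u + 0 + 1) * Real.log 2 =
        a * Real.log 2 + b * Real.log 2 + u * Real.log 2 + Real.log 2 := by ring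
      rw [e3]
      linarith
    rw [mul_assoc]
    exact mul_le_mul_of_nonneg_left e1 (by linarith)
  have l2 : Cp * ((U : ℝ) * (κ ^ 2 * U + 2 * N + (0 : ℕ) + 1) / u) ≤ Cp * (2 * T) := by
    refine mul_le_mul_of_nonneg_left ?_ (by linarith)
    have hu0 : (0 : ℝ) < u := by linarith
    rw [div_le_iff₀ hu0, Nat.cast_zero]
    have e1 : κ ^ 2 * U + 2 * N + 0 + 1 ≤ 2 * (κ ^ 2 * U) := by linarith
    calc (U : ℝ) * (κ ^ 2 * U + 2 * N + 0 + 1) ≤ U * (2 * (κ ^ 2 * U)) :=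
          mul_le_mul_of_nonneg_left e1 hU0
      _ = 2 * T * T := by rw [hT]; ring
      _ ≤ 2 * T * u := mul_le_mul_of_nonneg_left hu2 (by linarith)
  have l3 : (n : ℝ) * (Real.log (4 * (C₃ * Real.exp (κ ^ 2 * U)) + 1) + κ ^ 2 *
      Real.log (2 * (2 * C₄ * 2 ^ U * Real.exp (κ ^ 2 * U)) + 1)) ≤ n * (5 * T) := by
    refine mul_le_mul_of_nonneg_left ?_ hn0
    have e1 := mul_le_mul_of_nonneg_left hlog4 hκ20
    have e2 : κ ^ 2 * L₄ ≤ L₄ := mul_le_of_le_one_left hL₄0 hκ21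
    have e3 : κ ^ 2 * (κ ^ 2 * U) ≤ κ ^ 2 * U := mul_le_of_le_one_left (by positivity) hκ21
    have e4 : κ ^ 2 * (L₄ + U + κ ^ 2 * U) = κ ^ 2 * L₄ + κ ^ 2 * U + κ ^ 2 * (κ ^ 2 * U) := by
      ring
    rw [e4] at e1
    linarith
  have l4 : 0 ≤ (n : ℝ) * T := mul_nonneg hn0 (by linarith)
  have l5 : (6 * Cp + 6 * n + 1) * κ * U = Cp * (4 * T) + Cp * (2 * T) + n * (5 * T) + T +
      n * T := by rw [hT]; ring
  rw [l5]
  have l6 : n * (U * Real.log 2) - Cp * (4 * T) - Cp * (2 * T) ≤ CH μ Y (fun _ => ()) :=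
    le_trans (sub_le_sub (sub_le_sub_left l1 _) l2) hmain
  have l7 : CH μ Y (fun _ => ()) ≤ H μ Z + T + n * (5 * T) := by linarith
  linarith

end Pool.STAT
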